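import Mathlib
import Pool.Agent.H63.OB.Defs

/-!
An upper bound for partitions of `[n]^d` into odd proper boxes: a generalized partition of `[5]^3`
into 19 odd proper boxes and 2 boxes whose first side is full and whose other two sides are odd and
proper gives `f(n, d + 3) <= 19 f(n, d) + 2 f(n, d + 1)`.
-/

set_option autoImplicit false

namespace Pool.Agent.H34.OU

open Pool.Agent.H63.OB Finset

/-- The sides of the 19 proper boxes, as bit masks of subsets of `{0, 1, 2, 3, 4}`. -/
def sA : Fin 19 → ℕ := ![7, 21, 14, 1, 22, 28, 8, 16, 13, 2, 28, 1, 2, 7, 8, 16, 7, 8, 16]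
/-- Second sides. -/
def sB : Fin 19 → ℕ := ![21, 4, 1, 22, 19, 4, 2, 8, 28, 25, 1, 1, 4, 21, 4, 1, 8, 25, 28]
/-- Third sides. -/
def sC : Fin 19 → ℕ := ![1, 2, 2, 4, 4, 4, 4, 4, 8, 8, 8, 14, 14, 16, 19, 19, 21, 21, 25]
/-- Second sides of the two boxes with full first side. -/
def tB : Fin 2 → ℕ := ![26, 2]
/-- Third sides of the two boxes with full first side. -/
def tC : Fin 2 → ℕ := ![2, 25]

/-- Membership in the subset with mask `m`. -/
def mem (m : ℕ) (i : Fin 5) : Bool := m.testBit i.val

/-- Number of elements of the subset with mask `m`. -/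
def good (m : ℕ) : Prop := Odd (univ.filter fun i : Fin 5 => mem m i = true).card ∧
  ∃ i : Fin 5, mem m i = false

instance (m : ℕ) : Decidable (good m) := by unfold good; infer_instance

lemma good_A : ∀ k, good (sA k) := by decide +kernel
lemma good_B : ∀ k, good (sB k) := by decide +kernel
lemma good_C : ∀ k, good (sC k) := by decide +kernel
lemma good_tB : ∀ k, good (tB k) := by decide +kernel
lemma good_tC : ∀ k, good (tC k) := by decide +kernel

/-- Incidence of a point and a box of the generalized partition. -/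
def inc (a b c : Fin 5) : Fin 19 ⊕ Fin 2 → Bool
  | Sum.inl k => mem (sA k) a && mem (sB k) b && mem (sC k) c
  | Sum.inr k => mem (tB k) b && mem (tC k) c

lemma check : ∀ a b c : Fin 5, ∃! s : Fin 19 ⊕ Fin 2, inc a b c s = true := by
  have h : ∀ a b c : Fin 5, ∃ s : Fin 19 ⊕ Fin 2, inc a b c s = true ∧
      ∀ s' : Fin 19 ⊕ Fin 2, inc a b c s' = true → s' = s := by decide +kernel
  exact h

/-- The map blowing up the point 4. -/
def pr (n : ℕ) (t : Fin n) : Fin 5 := if h : t.val < 4 then ⟨t.val, by omega⟩ else 4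

/-- Preimage of the subset with mask `m`. -/
def side (n m : ℕ) : Finset (Fin n) := univ.filter fun t => mem m (pr n t) = true

lemma mem_side (n m : ℕ) (t : Fin n) : t ∈ side n m ↔ mem m (pr n t) = true := by
  simp [side]

lemma fibre_odd {n : ℕ} (hn : Odd n) (h5 : 5 ≤ n) (i : Fin 5) :
    Odd (univ.filter fun t : Fin n => pr n t = i).card := by
  by_cases hi : i.val < 4
  · have : (univ.filter fun t : Fin n => pr n t = i) = {⟨i.val, by omega⟩} := by
      ext t
      simp only [mem_filter, mem_univ, true_and, mem_singleton]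
      unfold pr
      constructor
      · intro h
        split_ifs at h with h4
        · apply Fin.ext; simp; rw [← h]
        · exfalso; rw [← h] at hi; exact absurd hi (by decide)
      · intro h
        have h2 : t.val = i.val := by rw [h]
        rw [dif_pos (by omega)]
        apply Fin.ext
        exact h2
    rw [this]; simp
  · have h4 : i = 4 := by
      apply Fin.ext
      have := i.isLt
      show i.val = 4
      omega
    have : (univ.filter fun t : Fin n => pr n t = i) = univ.filter fun t : Fin n => ¬ t.val < 4 := by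
      ext t
      simp only [mem_filter, mem_univ, true_and]
      unfold pr
      constructor
      · intro h hlt
        rw [dif_pos hlt, h4] at h
        have := congrArg Fin.val h
        simp at this
        omega
      · intro h
        rw [dif_neg h, h4]
    rw [this]
    have h1 : (univ.filter fun t : Fin n => t.val < 4).card = 4 := by
      have : (univ.filter fun t : Fin n => t.val < 4) = (univ : Finset (Fin 4)).image
          (fun j => (⟨j.val, by omega⟩ : Fin n)) := by
        ext t
        simp only [mem_filter, mem_univ, true_and, mem_image]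
        constructor
        · intro h; exact ⟨⟨t.val, h⟩, rfl⟩
        · rintro ⟨j, hj⟩; rw [← hj]; exact j.isLt
      rw [this, card_image_of_injective]
      · simp
      · intro a b hab
        have := congrArg Fin.val hab
        exact Fin.ext this
    have h2 := Finset.card_filter_add_card_filter_not (s := (univ : Finset (Fin n)))
      (fun t => t.val < 4)
    rw [h1, card_univ, Fintype.card_fin] at h2
    obtain ⟨r, hr⟩ := hn
    exact ⟨r - 2, by omega⟩

lemma side_odd {n : ℕ} (hn : Odd n) (h5 : 5 ≤ n) {m : ℕ} (hm : good m) :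
    Odd (side n m).card ∧ side n m ≠ univ := by
  constructor
  · have h1 : (side n m).card = ∑ i : Fin 5, ((side n m).filter fun t => pr n t = i).card :=
      Finset.card_eq_sum_card_fiberwise (fun t _ => by simp)
    rw [h1, Finset.odd_sum_iff_odd_card_odd]
    have h2 : (univ.filter fun i : Fin 5 => Odd ((side n m).filter fun t => pr n t = i).card)
        = univ.filter fun i : Fin 5 => mem m i = true := by
      ext i
      simp only [mem_filter, mem_univ, true_and]
      by_cases hi : mem m i = true
      · have : ((side n m).filter fun t => pr n t = i) = univ.filter fun t : Fin n => pr n t = i := by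
          ext t
          simp only [mem_filter, mem_univ, true_and, mem_side]
          constructor
          · exact fun h => h.2
          · intro h; exact ⟨by rw [h]; exact hi, h⟩
        rw [this]
        exact ⟨fun _ => hi, fun _ => fibre_odd hn h5 i⟩
      · have : ((side n m).filter fun t => pr n t = i) = ∅ := by
          ext t
          simp only [mem_filter, mem_side, notMem_empty, iff_false, not_and]
          intro h h'
          rw [h'] at h; exact hi h
        rw [this]
        simp [hi]
    rw [h2]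
    exact hm.1
  · obtain ⟨i, hi⟩ := hm.2
    have h0 : 0 < (univ.filter fun t : Fin n => pr n t = i).card := (fibre_odd hn h5 i).pos
    obtain ⟨t, ht⟩ := Finset.card_pos.mp h0
    simp only [mem_filter, mem_univ, true_and] at ht
    intro h
    have := Finset.mem_univ t
    rw [← h, mem_side, ht, hi] at this
    exact absurd this (by decide)

/-- There is a partition of `[n]^d` into at most `m` odd proper boxes, as an indexed family. -/
def Fam (n d m : ℕ) : Prop :=
  ∃ k : ℕ, k ≤ m ∧ ∃ b : Fin k → Box n d, (∀ i j, Odd (b i j).card ∧ b i j ≠ univ) ∧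
    ∀ x : Fin d → Fin n, ∃! i, ∀ j, x j ∈ b i j

lemma fam_of_type {n d m : ℕ} {I : Type} [Fintype I] (hI : Fintype.card I ≤ m) (b : I → Box n d)
    (h1 : ∀ i j, Odd (b i j).card ∧ b i j ≠ univ)
    (h2 : ∀ x : Fin d → Fin n, ∃! i, ∀ j, x j ∈ b i j) : Fam n d m := by
  let e := Fintype.equivFin I
  refine ⟨Fintype.card I, hI, fun i => b (e.symm i), fun i j => h1 _ _, fun x => ?_⟩
  obtain ⟨i, hi, hu⟩ := h2 x
  refine ⟨e i, by simpa using hi, fun i' hi' => ?_⟩
  have := hu (e.symm i') hi'
  rw [← this]; simp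

lemma partition_of_fam {n d m : ℕ} (h : Fam n d m) :
    ∃ P : Finset (Box n d), IsOddProperPartition P ∧ P.card ≤ m := by
  classical
  obtain ⟨k, hk, b, h1, h2⟩ := h
  refine ⟨univ.image b, ⟨?_, ?_⟩, ?_⟩
  · intro c hc i
    obtain ⟨j, _, rfl⟩ := Finset.mem_image.mp hc
    exact h1 j i
  · intro x
    obtain ⟨i, hi, hu⟩ := h2 x
    refine ⟨b i, ⟨Finset.mem_image_of_mem _ (Finset.mem_univ _), hi⟩, ?_⟩
    rintro c ⟨hc, hx⟩
    obtain ⟨j, _, rfl⟩ := Finset.mem_image.mp hc
    rw [hu j hx]
  · exact Finset.card_image_le.trans (by simpa using hk)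

lemma fam_mono {n d m m' : ℕ} (h : Fam n d m) (hm : m ≤ m') : Fam n d m' := by
  obtain ⟨k, hk, r⟩ := h
  exact ⟨k, hk.trans hm, r⟩

/-- The recursion. -/
lemma fam_step {n d m0 m1 : ℕ} (hn : Odd n) (h5 : 5 ≤ n) (h0 : Fam n d m0)
    (h1 : Fam n (d + 1) m1) : Fam n (d + 3) (19 * m0 + 2 * m1) := by
  obtain ⟨k0, hk0, b0, p0, q0⟩ := h0
  obtain ⟨k1, hk1, b1, p1, q1⟩ := h1
  refine fam_of_type (I := (Fin 19 × Fin k0) ⊕ (Fin 2 × Fin k1)) ?_
    (Sum.elim
      (fun s => Fin.cons (side n (sA s.1)) (Fin.cons (side n (sB s.1))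
        (Fin.cons (side n (sC s.1)) (b0 s.2) : Box n (d + 1)) : Box n (d + 2)))
      (fun s => Fin.cons (b1 s.2 0) (Fin.cons (side n (tB s.1))
        (Fin.cons (side n (tC s.1)) (fun j => b1 s.2 j.succ) : Box n (d + 1)) : Box n (d + 2))))
    ?_ ?_
  · simp only [Fintype.card_sum, Fintype.card_prod, Fintype.card_fin]
    exact Nat.add_le_add (Nat.mul_le_mul_left _ hk0) (Nat.mul_le_mul_left _ hk1)
  · rintro (s | s) j
    · simp only [Sum.elim_inl]
      refine Fin.cases ?_ (fun j => Fin.cases ?_ (fun j => Fin.cases ?_ (fun j => ?_) j) j) j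
      · simpa using side_odd hn h5 (good_A s.1)
      · simpa using side_odd hn h5 (good_B s.1)
      · exact side_odd hn h5 (good_C s.1)
      · simpa using p0 s.2 j
    · simp only [Sum.elim_inr]
      refine Fin.cases ?_ (fun j => Fin.cases ?_ (fun j => Fin.cases ?_ (fun j => ?_) j) j) j
      · simpa using p1 s.2 0
      · simpa using side_odd hn h5 (good_tB s.1)
      · exact side_odd hn h5 (good_tC s.1)
      · simpa using p1 s.2 j.succ
  · intro x
    have key : ∀ s : (Fin 19 × Fin k0) ⊕ (Fin 2 × Fin k1),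
        (∀ j, x j ∈ (Sum.elim
      (fun s : Fin 19 × Fin k0 => (Fin.cons (side n (sA s.1)) (Fin.cons (side n (sB s.1))
        (Fin.cons (side n (sC s.1)) (b0 s.2) : Box n (d + 1)) : Box n (d + 2)) : Box n (d + 3)))
      (fun s : Fin 2 × Fin k1 => Fin.cons (b1 s.2 0) (Fin.cons (side n (tB s.1))
        (Fin.cons (side n (tC s.1)) (fun j => b1 s.2 j.succ) : Box n (d + 1)) : Box n (d + 2))))
          s j) ↔
        Sum.elim
          (fun s : Fin 19 × Fin k0 => inc (pr n (x 0)) (pr n (x 1)) (pr n (x 2)) (Sum.inl s.1) = true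
            ∧ ∀ j : Fin d, x j.succ.succ.succ ∈ b0 s.2 j)
          (fun s : Fin 2 × Fin k1 => inc (pr n (x 0)) (pr n (x 1)) (pr n (x 2)) (Sum.inr s.1) = true
            ∧ ∀ j : Fin (d + 1), (Fin.cons (x 0) (fun j : Fin d => x j.succ.succ.succ) :
              Fin (d + 1) → Fin n) j ∈ b1 s.2 j) s := by
      rintro (s | s)
      · simp only [Sum.elim_inl, Fin.forall_fin_succ, Fin.cons_zero, Fin.cons_succ, inc,
          Bool.and_eq_true, mem_side]
        constructor
        · rintro ⟨a, b, c, e⟩; exact ⟨⟨⟨a, b⟩, c⟩, e⟩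
        · rintro ⟨⟨⟨a, b⟩, c⟩, e⟩; exact ⟨a, b, c, e⟩
      · simp only [Sum.elim_inr, Fin.forall_fin_succ, Fin.cons_zero, Fin.cons_succ, inc,
          Bool.and_eq_true, mem_side]
        constructor
        · rintro ⟨a, b, c, e⟩; exact ⟨⟨b, c⟩, a, e⟩
        · rintro ⟨⟨b, c⟩, a, e⟩; exact ⟨a, b, c, e⟩
    obtain ⟨s, hs, hu⟩ := check (pr n (x 0)) (pr n (x 1)) (pr n (x 2))
    rcases s with k | k
    · obtain ⟨i, hi, hiu⟩ := q0 fun j => x j.succ.succ.succ
      refine ⟨Sum.inl (k, i), (key _).mpr ⟨hs, hi⟩, ?_⟩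
      rintro (s | s) h
      · have h' := (key _).mp h
        have e1 := hu _ h'.1
        have e2 := hiu _ h'.2
        simp only [Sum.inl.injEq] at e1
        rw [← e1, ← e2]
      · have h' := (key _).mp h
        have e1 := hu _ h'.1
        exact absurd e1 (by simp)
    · obtain ⟨i, hi, hiu⟩ := q1 (Fin.cons (x 0) (fun j : Fin d => x j.succ.succ.succ))
      refine ⟨Sum.inr (k, i), (key _).mpr ⟨hs, hi⟩, ?_⟩
      rintro (s | s) h
      · have h' := (key _).mp h
        have e1 := hu _ h'.1
        exact absurd e1 (by simp)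
      · have h' := (key _).mp h
        have e1 := hu _ h'.1
        have e2 := hiu _ h'.2
        simp only [Sum.inr.injEq] at e1
        rw [← e1, ← e2]

lemma fam_zero (n : ℕ) : Fam n 0 1 :=
  ⟨1, le_rfl, fun _ => Fin.elim0, fun _ j => j.elim0, fun _ => ⟨0, fun j => j.elim0,
    fun _ _ => Subsingleton.elim _ _⟩⟩

/-- Product with the partition of `[n]` into three odd sets. -/
lemma fam_three {n d m : ℕ} (hn : Odd n) (h5 : 5 ≤ n) (h : Fam n d m) : Fam n (d + 1) (3 * m) := by
  obtain ⟨k, hk, b, p, q⟩ := h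
  have g : ∀ i : Fin 3, good (![1, 2, 28] i) := by decide +kernel
  have ck' : ∀ a : Fin 5, ∃ i : Fin 3, mem (![1, 2, 28] i) a = true ∧
      ∀ i' : Fin 3, mem (![1, 2, 28] i') a = true → i' = i := by decide +kernel
  have ck : ∀ a : Fin 5, ∃! i : Fin 3, mem (![1, 2, 28] i) a = true := ck'
  refine fam_of_type (I := Fin 3 × Fin k) ?_
    (fun s => Fin.cons (side n (![1, 2, 28] s.1)) (b s.2)) ?_ ?_
  · simp only [Fintype.card_prod, Fintype.card_fin]
    exact Nat.mul_le_mul_left _ hk
  · intro s j
    refine Fin.cases ?_ (fun j => ?_) j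
    · simpa using side_odd hn h5 (g s.1)
    · simpa using p s.2 j
  · intro x
    obtain ⟨i, hi, hu⟩ := ck (pr n (x 0))
    obtain ⟨i', hi', hu'⟩ := q fun j => x j.succ
    refine ⟨(i, i'), ?_, ?_⟩
    · intro j
      refine Fin.cases ?_ (fun j => ?_) j
      · simpa [mem_side] using hi
      · simpa using hi' j
    · rintro ⟨s, s'⟩ h
      have e1 := hu s (by simpa [mem_side] using h 0)
      have e2 := hu' s' (fun j => by simpa using h j.succ)
      rw [e1, e2]

theorem upper {n : ℕ} (hn : Odd n) (h5 : 5 ≤ n) : ∀ d : ℕ,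
    ∃ m : ℕ, Fam n d m ∧ (m : ℝ) ≤ (53 / 50) * (1459 / 500) ^ d := by
  intro d
  induction d using Nat.strong_induction_on with
  | _ d ih =>
    match d, ih with
    | 0, _ => exact ⟨1, fam_zero n, by norm_num⟩
    | 1, _ => exact ⟨3, by simpa using fam_three hn h5 (fam_zero n), by norm_num⟩
    | 2, _ => exact ⟨9, by simpa using fam_three hn h5 (fam_three hn h5 (fam_zero n)), by norm_num⟩
    | d + 3, ih =>
      obtain ⟨m0, h0, e0⟩ := ih d (by omega)
      obtain ⟨m1, h1, e1⟩ := ih (d + 1) (by omega)
      refine ⟨19 * m0 + 2 * m1, fam_step hn h5 h0 h1, ?_⟩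
      push_cast
      have hp : (0 : ℝ) < (1459 / 500) ^ d := by positivity
      rw [pow_succ] at e1
      rw [pow_add]
      nlinarith

end Pool.Agent.H34.OU
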